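import Mathlib

set_option autoImplicit false

namespace Pool.Agent.Results.MP_dca5dd_al.Pos

open Submodule Finset Module

variable {n : ℕ} {N : Type} [AddCommGroup N] [Module ℂ N]

inductive Word (br : MultilinearMap ℂ (fun _ : Fin n => N) N) (S : Finset N) : ℕ → N → Prop
  | base (s : N) : s ∈ S → Word br S 1 s
  | node (l : Fin n → ℕ) (w : Fin n → N) : (∀ t, Word br S (l t) (w t)) →
      Word br S (∑ t, l t) (br w)

def L (br : MultilinearMap ℂ (fun _ : Fin n => N) N) (S : Finset N) (i : ℕ) : Submodule ℂ N :=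
  span ℂ {w | ∃ l, l ≤ i ∧ Word br S l w}

variable (br : MultilinearMap ℂ (fun _ : Fin n => N) N) (S : Finset N)

lemma expand (B : Fin n → Set N) (E : Submodule ℂ N) (h : ∀ y, (∀ t, y t ∈ B t) → br y ∈ E)
    (x : Fin n → N) (hx : ∀ t, x t ∈ span ℂ (B t)) : br x ∈ E := by
  choose m c g hg using fun t => mem_span_set'.1 (hx t)
  rw [← funext hg, br.map_sum fun t i => c t i • (g t i : N)]
  exact sum_mem fun r _ => by
    rw [br.map_smul_univ]; exact smul_mem _ _ (h _ fun t => (g t (r t)).2)

lemma L_mono {i j : ℕ} (h : i ≤ j) : L br S i ≤ L br S j :=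
  span_mono fun _ ⟨l, h1, h2⟩ => ⟨l, h1.trans h, h2⟩

lemma L_br (l : Fin n → ℕ) (x : Fin n → N) (hx : ∀ t, x t ∈ L br S (l t)) :
    br x ∈ L br S (∑ t, l t) := by
  refine expand br _ _ (fun y hy => ?_) x hx
  choose m h1 h2 using hy
  exact subset_span ⟨_, sum_le_sum fun t _ => h1 t, .node m y h2⟩

lemma W_pos (hn : 2 ≤ n) {l : ℕ} {w : N} (h : Word br S l w) : 1 ≤ l := by
  induction h with
  | base => exact le_rfl
  | node l w _ ih => exact (ih ⟨0, by omega⟩).trans (single_le_sum (f := l) (by simp) (mem_univ _))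

lemma sum_top {G : ℕ → ℕ} (hG : Monotone G) (j : ℕ) : ∀ T : Finset ℕ, T ⊆ range j →
    ∑ t ∈ T, G (t + 1) ≤ ∑ u ∈ range T.card, G (j - u) := by
  induction j with
  | zero => intro T h; simp_all
  | succ j ih =>
    intro T h
    by_cases hj : j ∈ T
    · have h1 := ih (T.erase j) fun t ht => by
        have := h (mem_of_mem_erase ht)
        have := ne_of_mem_erase ht
        simp at *; omega
      rw [← add_sum_erase _ _ hj, ← card_erase_add_one hj, sum_range_succ']
      simp only [Nat.add_sub_add_right, Nat.sub_zero]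
      omega
    · refine (ih T fun t ht => ?_).trans (sum_le_sum fun u _ => hG (by omega))
      have := h ht
      have : t ≠ j := fun e => hj (e ▸ ht)
      simp at *; omega

theorem result : ∀ (n : ℕ), 2 ≤ n → ∀ A C : Finset (Fin n), Disjoint A C → A.card ≠ 1 →
    ∀ (a : ℕ), a = (if 2 ≤ A.card then A.card else 1) → ∀ F : ℕ → ℕ, (∀ m, m ≤ a → F m = 1) →
    (∀ m, a < m → F m = (n - a + 1) * F (m - 1) + ∑ i ∈ Finset.Icc 2 a, F (m - i)) →
    ∀ (k : ℕ), 1 ≤ k → ∀ (N : Type) [AddCommGroup N] [Module ℂ N] [FiniteDimensional ℂ N],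
    finrank ℂ N = k → ∀ br : MultilinearMap ℂ (fun _ : Fin n => N) N,
    (∀ i ∈ A, ∀ j ∈ A, i ≠ j → ∀ x, br (x ∘ Equiv.swap i j) = - br x) →
    (∀ i ∈ C, ∀ j ∈ C, i ≠ j → ∀ x, br (x ∘ Equiv.swap i j) = br x) →
    ∀ S : Finset N, (∀ v, ∃ i, v ∈ L br S i) → ∃ i, 1 ≤ i ∧ i ≤ F k ∧ L br S i = ⊤ := by
  intro n hn A C _ hA a ha F F1 F2 k _ N _ _ _ hk br hbr _ S hS
  have a1 : 1 ≤ a := by rw [ha]; split_ifs <;> omega
  have mono : Monotone F := monotone_nat_of_le_succ fun m => by
    by_cases h : m + 1 ≤ a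
    · rw [F1 _ h, F1 m (by omega)]
    · rw [F2 (m + 1) (by omega), Nat.add_sub_cancel, add_mul]; omega
  have Fp : ∀ m, 1 ≤ F m := fun m => F1 0 (by omega) ▸ mono (Nat.zero_le m)
  have bound : ∀ j (s : Fin n → ℕ), (∀ t, s t < j) → Set.InjOn s A →
      ∑ t, F (s t + 1) ≤ F (j + 1) := by
    intro j s hs hi
    obtain ⟨A', h1, h2⟩ : ∃ A' : Finset (Fin n), A'.card = a ∧ Set.InjOn s A' := by
      by_cases h : 2 ≤ A.card
      · exact ⟨A, by rw [ha, if_pos h], hi⟩
      · exact ⟨{⟨0, by omega⟩}, by rw [ha, if_neg h]; rfl, by simp⟩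
    have h3 : A'.image s ⊆ range j := fun t ht => by
      obtain ⟨u, -, rfl⟩ := mem_image.1 ht
      exact mem_range.2 (hs u)
    have h4 := sum_top mono j _ h3
    have h5 := card_le_card h3
    rw [card_image_of_injOn h2, h1] at h4 h5
    rw [sum_image h2] at h4
    have h6 : ∑ t ∈ A'ᶜ, F (s t + 1) ≤ (n - a) * F j := by
      simpa [card_compl, h1] using sum_le_card_nsmul A'ᶜ (fun t => F (s t + 1)) (F j)
        fun t _ => mono (hs t)
    rw [card_range] at h5
    rw [← sum_add_sum_compl A', F2 _ (by omega), ← Ico_add_one_right_eq_Icc, sum_Ico_eq_sum_range]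
    obtain ⟨b, rfl⟩ : ∃ b, a = b + 1 := ⟨a - 1, by omega⟩
    rw [sum_range_succ'] at h4
    have h7 : ∀ u, j + 1 - (2 + u) = j - (u + 1) := fun u => by omega
    simp only [h7, show b + 1 + 1 - 2 = b by omega, Nat.add_sub_cancel, Nat.sub_zero] at *
    rw [add_mul]
    omega
  have key : ∀ j, L br S (F j) = ⊤ ∨ ∃ (e : ℕ → N) (w : ℕ → ℕ) (m : ℕ), m ≤ F j ∧
      (∀ t < j, e t ∈ L br S (w t) ∧ w t ≤ F (t + 1) ∧ w t ≤ m) ∧
      j ≤ finrank ℂ (span ℂ (e '' {t | t < j})) ∧
      ∀ i < m, L br S i ≤ span ℂ (e '' {t | t < j ∧ w t ≤ i}) := by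
    intro j
    induction j with
    | zero => exact .inr ⟨0, 0, 0, by simp, by simp, by simp, by simp⟩
    | succ j ih =>
      rcases ih with ih | ⟨e, w, m, h1, h2, h3, h4⟩
      · exact .inl (top_unique (ih ▸ L_mono br S (mono j.le_succ)))
      set E := span ℂ (e '' {t | t < j}) with hE
      by_cases hex : ∃ i, ¬ L br S i ≤ E
      swap
      · left
        push Not at hex
        refine top_unique fun v _ => ?_
        obtain ⟨i, hi⟩ := hS v
        refine (span_le.2 ?_ : E ≤ _) (hex i hi)
        rintro _ ⟨t, ht, rfl⟩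
        exact L_mono br S ((h2 t ht).2.1.trans (mono (Nat.succ_le_succ (le_of_lt ht)))) (h2 t ht).1
      classical
      have hi := Nat.find_spec hex
      have hlt : ∀ i < Nat.find hex, L br S i ≤ E := fun i h => not_not.1 (Nat.find_min hex h)
      generalize Nat.find hex = i at hi hlt
      have hm : m ≤ i := by
        by_contra! h
        exact hi ((h4 i h).trans (span_mono (Set.image_mono fun t ht => ht.1)))
      have ad : ∀ i' < i, L br S i' ≤ span ℂ (e '' {t | t < j ∧ w t ≤ i'}) := fun i' h => by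
        by_cases h' : i' < m
        · exact h4 i' h'
        · exact (hlt i' h).trans (span_mono (Set.image_mono fun t ht =>
            ⟨ht, (h2 t ht).2.2.trans (not_lt.1 h')⟩))
      obtain ⟨v, ⟨l, hl, hv⟩, hvE⟩ := Set.not_subset.1 (mt span_le.2 hi)
      have hb : i ≤ F (j + 1) := by
        by_contra! hc
        have hl' : ¬ l < i := fun h => hvE (hlt l h (subset_span ⟨l, le_rfl, hv⟩))
        cases hv with
        | base => have := Fp (j + 1); omega
        | node l x hx =>
          refine hvE (expand br (fun t => e '' {s | s < j ∧ w s ≤ l t}) E (fun y hy => ?_) x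
            fun t => ad (l t) (lt_of_lt_of_le ?_ hl) (subset_span ⟨_, le_rfl, hx t⟩))
          · choose s hs hy using hy
            obtain rfl : y = fun t => e (s t) := funext fun t => (hy t).symm
            by_cases hinj : Set.InjOn s A
            · refine hlt _ (lt_of_le_of_lt ?_ hc) (L_br br S (fun t => w (s t)) _
                fun t => (h2 _ (hs t).1).1)
              exact (sum_le_sum fun t _ => (h2 _ (hs t).1).2.1).trans
                (bound j s (fun t => (hs t).1) hinj)
            · simp only [Set.InjOn, not_forall] at hinj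
              obtain ⟨p, hp, q, hq, h5, h6⟩ := hinj
              have h7 := hbr p hp q hq h6 fun t => e (s t)
              have h8 : (fun t => e (s t)) ∘ Equiv.swap p q = fun t => e (s t) := by
                ext t
                simp only [Function.comp, Equiv.swap_apply_def]
                split_ifs <;> simp_all
              rw [h8, eq_neg_iff_add_eq_zero, ← two_smul ℂ, smul_eq_zero] at h7
              rw [h7.resolve_left two_ne_zero]
              exact zero_mem _
          · obtain ⟨u, hu⟩ : ∃ u, u ≠ t := by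
              have : Nontrivial (Fin n) := Fin.nontrivial_iff_two_le.2 hn
              exact exists_ne t
            exact single_lt_sum hu (mem_univ _) (mem_univ _) (W_pos br S hn (hx u)) (by simp)
      refine .inr ⟨Function.update e j v, Function.update w j i, i, hb, fun t ht => ?_, ?_,
        fun i' h => (ad i' h).trans (span_mono ?_)⟩
      · rcases Nat.lt_succ_iff_lt_or_eq.1 ht with h | rfl
        · rw [Function.update_of_ne h.ne, Function.update_of_ne h.ne]
          exact ⟨(h2 t h).1, (h2 t h).2.1, (h2 t h).2.2.trans hm⟩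
        · simpa using ⟨subset_span ⟨l, hl, hv⟩, hb⟩
      · refine Nat.succ_le_of_lt (h3.trans_lt (finrank_lt_finrank_of_lt (lt_of_le_of_ne
          (span_mono ?_) fun h => hvE ?_)))
        · rintro _ ⟨t, ht, rfl⟩
          exact ⟨t, Nat.lt_succ_of_lt ht, Function.update_of_ne (ne_of_lt ht) _ _⟩
        · rw [h]
          exact subset_span ⟨j, by simp, by simp⟩
      · rintro _ ⟨t, ht, rfl⟩
        exact ⟨t, ⟨Nat.lt_succ_of_lt ht.1, by rw [Function.update_of_ne ht.1.ne]; exact ht.2⟩,
          Function.update_of_ne ht.1.ne _ _⟩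
  refine ⟨F k, Fp k, le_rfl, ?_⟩
  subst hk
  rcases key (finrank ℂ N) with h | ⟨e, w, m, -, h2, h3, -⟩
  · exact h
  refine top_unique ((eq_top_of_finrank_eq ((finrank_le _).antisymm h3)).ge.trans
    (span_le.2 ?_))
  rintro _ ⟨t, ht, rfl⟩
  exact L_mono br S ((h2 t ht).2.1.trans (mono ht)) (h2 t ht).1

end Pool.Agent.Results.MP_dca5dd_al.Pos
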